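import Pool.Agent.H63.E8Main

/-!
Let `M = H^1(T; ℤ)` be free abelian with basis `x_1, …, x_8`. There is a class `ω` in
`H^4(ℤ^8) = Λ^4 M` for which the pairing `(u, v) ↦ ⟨u ∪ v ∪ ω, [T]⟩` on `H^2(ℤ^8) = Λ^2 M` is
isomorphic over `ℤ` to the sum of `E₈` and ten hyperbolic planes.
-/

namespace Pool.Agent.Results.MP_58c1a9_gt.E8Pairing

/-- The family `b` is a basis of the submodule `N`. -/
def IsBasisOf {R A ι : Type} [CommRing R] [AddCommGroup A] [Module R A]
    (N : Submodule R A) (b : ι → A) : Prop :=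
  LinearIndependent R b ∧ Submodule.span R (Set.range b) = N

/-- The coefficient of `b_1 ∧ ⋯ ∧ b_n` in an element `z` of the exterior algebra of a module with
basis `b_1, …, b_n`. -/
noncomputable def topCoeff {R M : Type} [CommRing R] [AddCommGroup M] [Module R M] {n : ℕ}
    (b : Module.Basis (Fin n) R M) (z : ExteriorAlgebra R M) : R :=
  b.ExteriorAlgebra.repr z Finset.univ

/-- The pairing `B_ω(u, v) = ⟨u ∪ v ∪ ω, [T]⟩`: the coefficient of `x_1 ∧ ⋯ ∧ x_8` in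
`u ∧ v ∧ ω`, where `x_1, …, x_8` is the given basis of `M = H^1(T)`. -/
noncomputable def pairing {M : Type} [AddCommGroup M] (x : Module.Basis (Fin 8) ℤ M)
    (ω u v : ExteriorAlgebra ℤ M) : ℤ :=
  topCoeff x (u * v * ω)

/-- The Gram matrix of `E₈ ⊕ 10 H`. -/
def e8TenH : Matrix (Fin 8 ⊕ (Fin 10 ⊕ Fin 10)) (Fin 8 ⊕ (Fin 10 ⊕ Fin 10)) ℤ :=
  Matrix.fromBlocks CartanMatrix.E₈ 0 0 (Matrix.fromBlocks 0 1 1 0)

theorem result {M : Type} [AddCommGroup M] (x : Module.Basis (Fin 8) ℤ M) :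
    ∃ ω ∈ ⋀[ℤ]^4 M, ∃ b : Fin 8 ⊕ (Fin 10 ⊕ Fin 10) → ExteriorAlgebra ℤ M,
      IsBasisOf (⋀[ℤ]^2 M) b ∧ ∀ i j, pairing x ω (b i) (b j) = e8TenH i j := by
  let c := (Pool.Agent.H63.E8.bas x).reindex Pool.Agent.H63.E8.idx
  refine ⟨Pool.Agent.H63.E8.om x, Pool.Agent.H63.E8.om_mem x,
    fun i => (c i : ExteriorAlgebra ℤ M), ⟨?_, ?_⟩, fun i j => ?_⟩
  · exact c.linearIndependent.map' (⋀[ℤ]^2 M).subtype (Submodule.ker_subtype _)
  · have h : Set.range (fun i => (c i : ExteriorAlgebra ℤ M)) =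
        (⋀[ℤ]^2 M).subtype '' Set.range c := by
      rw [← Set.range_comp]
      rfl
    rw [h, ← Submodule.map_span, c.span_eq, Submodule.map_top, Submodule.range_subtype]
  · have h := Pool.Agent.H63.E8.u_mul x (Pool.Agent.H63.E8.idx.symm i)
      (Pool.Agent.H63.E8.idx.symm j)
    rw [Pool.Agent.H63.E8.Tm_idx] at h
    unfold pairing topCoeff
    simp only [c]
    rw [Module.Basis.reindex_apply, Module.Basis.reindex_apply, Pool.Agent.H63.E8.bas_apply,
      Pool.Agent.H63.E8.bas_apply, h, ← Pool.Agent.H63.E8.basis_univ, map_smul,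
      Module.Basis.repr_self, Finsupp.smul_apply, Finsupp.single_eq_same, smul_eq_mul, mul_one]
    rfl

end Pool.Agent.Results.MP_58c1a9_gt.E8Pairing
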